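import Pool.Agent.H642.KK.Stm2

set_option autoImplicit false

namespace Pool.Agent.H694.KK

open Set

section
variable {K : Type} [TopologicalSpace K]

/-- the order automorphism preserves the empty set -/
theorem tau_empty (τ : {U : Set K // IsClopen U} ≃ {U : Set K // IsClopen U})
    (hτ : ∀ U V, U.1 ⊆ V.1 ↔ (τ U).1 ⊆ (τ V).1) :
    (τ ⟨∅, isClopen_empty⟩).1 = ∅ := by
  have h1 := (hτ ⟨∅, isClopen_empty⟩ (τ.symm ⟨∅, isClopen_empty⟩)).1 (empty_subset _)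
  rw [Equiv.apply_symm_apply] at h1
  exact subset_empty_iff.1 h1

theorem tau_inter (τ : {U : Set K // IsClopen U} ≃ {U : Set K // IsClopen U})
    (hτ : ∀ U V, U.1 ⊆ V.1 ↔ (τ U).1 ⊆ (τ V).1) (U V : {U : Set K // IsClopen U}) :
    (τ ⟨U.1 ∩ V.1, U.2.inter V.2⟩).1 = (τ U).1 ∩ (τ V).1 := by
  apply Subset.antisymm
  · apply subset_inter
    · exact (hτ _ _).1 inter_subset_left
    · exact (hτ _ _).1 inter_subset_right
  · have h1 : (τ.symm ⟨(τ U).1 ∩ (τ V).1, (τ U).2.inter (τ V).2⟩).1 ⊆ U.1 := by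
      rw [hτ, Equiv.apply_symm_apply]
      exact inter_subset_left
    have h2 : (τ.symm ⟨(τ U).1 ∩ (τ V).1, (τ U).2.inter (τ V).2⟩).1 ⊆ V.1 := by
      rw [hτ, Equiv.apply_symm_apply]
      exact inter_subset_right
    have h3 := (hτ (τ.symm ⟨(τ U).1 ∩ (τ V).1, (τ U).2.inter (τ V).2⟩)
      ⟨U.1 ∩ V.1, U.2.inter V.2⟩).1 (subset_inter h1 h2)
    rwa [Equiv.apply_symm_apply] at h3

theorem tau_compl (τ : {U : Set K // IsClopen U} ≃ {U : Set K // IsClopen U})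
    (hτ : ∀ U V, U.1 ⊆ V.1 ↔ (τ U).1 ⊆ (τ V).1) (U : {U : Set K // IsClopen U}) :
    (τ ⟨U.1ᶜ, U.2.compl⟩).1 ∩ (τ U).1 = ∅ := by
  rw [← tau_inter τ hτ, ← tau_empty τ hτ]
  congr 2
  apply Subtype.ext
  exact compl_inter_self _

theorem exists_map [CompactSpace K]
    (τ : {U : Set K // IsClopen U} ≃ {U : Set K // IsClopen U})
    (hτ : ∀ U V, U.1 ⊆ V.1 ↔ (τ U).1 ⊆ (τ V).1) :
    ∃ h : K → K, ∀ x U, x ∈ U.1 ↔ h x ∈ (τ U).1 := by
  have h1 : ∀ x : K, ∃ y : K, ∀ U : {U : Set K // IsClopen U}, x ∈ U.1 → y ∈ (τ U).1 := by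
    intro x
    have : Nonempty {U : {U : Set K // IsClopen U} // x ∈ U.1} :=
      ⟨⟨⟨univ, isClopen_univ⟩, mem_univ x⟩⟩
    obtain ⟨y, hy⟩ := IsCompact.nonempty_iInter_of_directed_nonempty_isCompact_isClosed
      (fun U : {U : {U : Set K // IsClopen U} // x ∈ U.1} => (τ U.1).1)
      (by
        intro U V
        refine ⟨⟨⟨U.1.1 ∩ V.1.1, U.1.2.inter V.1.2⟩, U.2, V.2⟩, ?_, ?_⟩
        · exact (hτ _ _).1 inter_subset_left
        · exact (hτ _ _).1 inter_subset_right)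
      (by
        intro U
        rw [nonempty_iff_ne_empty]
        intro he
        have h2 : (τ U.1).1 ⊆ (τ ⟨∅, isClopen_empty⟩).1 := by rw [he]; exact empty_subset _
        have h3 := (hτ _ _).2 h2
        exact h3 U.2)
      (fun U => (τ U.1).2.isClosed.isCompact)
      (fun U => (τ U.1).2.isClosed)
    refine ⟨y, fun U hU => ?_⟩
    exact mem_iInter.1 hy ⟨U, hU⟩
  choose h hh using h1
  refine ⟨h, fun x U => ⟨hh x U, fun hx => ?_⟩⟩
  by_contra hxU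
  have h2 := hh x ⟨U.1ᶜ, U.2.compl⟩ hxU
  have h3 : h x ∈ (τ ⟨U.1ᶜ, U.2.compl⟩).1 ∩ (τ U).1 := ⟨h2, hx⟩
  rw [tau_compl τ hτ] at h3
  exact h3

theorem eq_of_clopen [CompactSpace K] [T2Space K] [TotallyDisconnectedSpace K] {x y : K}
    (h : ∀ U : Set K, IsClopen U → x ∈ U → y ∈ U) : x = y := by
  by_contra hxy
  have : TotallySeparatedSpace K := loc_compact_t2_tot_disc_iff_tot_sep.1 inferInstance
  obtain ⟨U, hU, hx, hy⟩ := exists_isClopen_of_totally_separated hxy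
  exact hy (h U hU hx)

theorem cont_of [CompactSpace K] [T2Space K] [TotallyDisconnectedSpace K]
    (τ : {U : Set K // IsClopen U} ≃ {U : Set K // IsClopen U}) (h : K → K)
    (hh : ∀ x U, x ∈ U.1 ↔ h x ∈ (τ U).1) : Continuous h := by
  rw [(isTopologicalBasis_isClopen (X := K)).continuous_iff]
  intro V hV
  have : h ⁻¹' V = (τ.symm ⟨V, hV⟩).1 := by
    ext x
    rw [hh x (τ.symm ⟨V, hV⟩), Equiv.apply_symm_apply]
    rfl
  rw [this]
  exact (τ.symm ⟨V, hV⟩).2.isOpen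

end

theorem st (K : Type) [TopologicalSpace K] [CompactSpace K] [T2Space K]
  [TotallyDisconnectedSpace K] (τ : {U : Set K // IsClopen U} ≃ {U : Set K // IsClopen U})
  (hτ : ∀ U V, U.1 ⊆ V.1 ↔ (τ U).1 ⊆ (τ V).1) : ∃ h : K ≃ₜ K, ∀ U, h '' U.1 = (τ U).1 := by
  obtain ⟨h, hh⟩ := exists_map τ hτ
  have hτ' : ∀ U V, U.1 ⊆ V.1 ↔ (τ.symm U).1 ⊆ (τ.symm V).1 := by
    intro U V
    rw [hτ (τ.symm U) (τ.symm V), Equiv.apply_symm_apply, Equiv.apply_symm_apply]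
  obtain ⟨k, hk⟩ := exists_map τ.symm hτ'
  have hkh : ∀ x, k (h x) = x := by
    intro x
    symm
    apply eq_of_clopen
    intro U hU hx
    have h1 := (hh x ⟨U, hU⟩).1 hx
    have h2 := (hk (h x) (τ ⟨U, hU⟩)).1 h1
    rwa [Equiv.symm_apply_apply] at h2
  have hhk : ∀ x, h (k x) = x := by
    intro x
    symm
    apply eq_of_clopen
    intro U hU hx
    have h1 := (hk x ⟨U, hU⟩).1 hx
    have h2 := (hh (k x) (τ.symm ⟨U, hU⟩)).1 h1
    rwa [Equiv.apply_symm_apply] at h2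
  refine ⟨⟨⟨h, k, hkh, hhk⟩, cont_of τ h hh, cont_of τ.symm k hk⟩, ?_⟩
  intro U
  change h '' U.1 = (τ U).1
  ext y
  constructor
  · rintro ⟨x, hx, rfl⟩
    exact (hh x U).1 hx
  · intro hy
    refine ⟨k y, ?_, hhk y⟩
    have h2 := (hk y (τ U)).1 hy
    rwa [Equiv.symm_apply_apply] at h2

theorem t_ST : Pool.Agent.H642.KK.S_ST := fun K _ _ _ _ τ hτ => st K τ hτ

end Pool.Agent.H694.KK
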